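import Pool.Agent.Helper10.RC.Basic

/-!
# MP_b55b7c_an: the fixed point algebra in the representation given by an invariant trace
-/

open scoped ENNReal NNReal InnerProductSpace ComplexOrder
open Filter Topology

attribute [-instance] CStarMatrix.instAlgebra CStarMatrix.instModule CStarMatrix.instSMul
  CStarMatrix.instMulAction CStarMatrix.instDistribMulAction

noncomputable section
namespace RC
universe u

theorem repFV2P (h : RepFVP.{u}) : RepFV2P.{u} := by
  intro A _ _ _ B _ j φ G _ _ α H _ _ _ π ρ ξ U hrep hact hfix himp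
  obtain ⟨hFV, hπ⟩ := h A φ H π ρ ξ hrep
  have hsub : (Set.range ρ ∪ Set.range U).centralizer ⊆ (Set.range ρ).centralizer :=
    Set.centralizer_subset Set.subset_union_left
  refine ⟨⟨?_, hFV.norm, ?_, ?_⟩, ?_⟩
  · rintro x (hx | ⟨g, rfl⟩)
    · exact Or.inl (hFV.star x hx)
    · exact Or.inr ⟨g⁻¹, (himp.star g).symm⟩
  · intro x hx y hy
    exact hFV.trace x (hsub hx) y (hsub hy)
  · intro x hx hx0
    exact hFV.sep x (hsub hx) hx0
  · intro b
    rw [Set.mem_centralizer_iff]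
    rintro m (hm | ⟨g, rfl⟩)
    · exact Set.mem_centralizer_iff.mp (hπ (j b)) m hm
    · rw [himp.cov, (hfix.2 (j b)).mpr ⟨b, rfl⟩ g]

theorem kap2P (h1 : KapP.{u}) : Kap2P.{u} := by
  intro A _ _ _ B _ j φ G _ _ α H _ _ _ π ρ ξ U hrep hact hfix himp T hT hT1 ε hε
  have hsub : (Set.range ρ ∪ Set.range U).centralizer ⊆ (Set.range ρ).centralizer :=
    Set.centralizer_subset Set.subset_union_left
  obtain ⟨x₀, hx₀, hxT⟩ := h1 A φ H π ρ ξ hrep T (hsub hT) hT1 ε hε
  have hcard : (0 : ℝ) < (Fintype.card G : ℝ) := by exact_mod_cast Fintype.card_pos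
  have hcardC : (Fintype.card G : ℂ) ≠ 0 := by exact_mod_cast hcard.ne'
  set a : A := (Fintype.card G : ℂ)⁻¹ • ∑ g, α g x₀ with ha
  have hinv : ∀ h : G, α h a = a := by
    intro h
    rw [ha, map_smul, map_sum]
    congr 1
    have : ∀ g, α h (α g x₀) = α (h * g) x₀ := fun g => (hact h g x₀).symm
    simp_rw [this]
    exact Fintype.sum_equiv (Equiv.mulLeft h) _ _ (fun g => rfl)
  obtain ⟨x, hx⟩ := (hfix.2 a).mp hinv
  have hiso : ∀ g (y : A), ‖α g y‖ = ‖y‖ := fun g y => by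
    have : Isometry (α g) := NonUnitalStarAlgHom.isometry (α g) (α g).injective
    exact this.norm_map_of_map_zero (map_zero _) y
  have hnorm_inv : ‖(Fintype.card G : ℂ)⁻¹‖ = (Fintype.card G : ℝ)⁻¹ := by
    rw [norm_inv, Complex.norm_natCast]
  have haN : ‖a‖ ≤ 1 := by
    rw [ha, norm_smul, hnorm_inv]
    calc (Fintype.card G : ℝ)⁻¹ * ‖∑ g, α g x₀‖ ≤ (Fintype.card G : ℝ)⁻¹ * ∑ g, ‖α g x₀‖ := by
          gcongr; exact norm_sum_le _ _
      _ ≤ (Fintype.card G : ℝ)⁻¹ * ∑ _g : G, (1 : ℝ) := by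
          gcongr with g; rw [hiso]; exact hx₀
      _ = 1 := by simp [hcard.ne']
  have hjx : ‖x‖ = ‖j x‖ := by
    have : Isometry j := NonUnitalStarAlgHom.isometry j hfix.1
    exact (this.norm_map_of_map_zero (map_zero _) x).symm
  refine ⟨x, by rw [hjx, hx]; exact haN, ?_⟩
  rw [hx]
  have hUξ : ∀ g, U g ξ = ξ := by
    intro g
    have := himp.app g 1
    simpa using this
  have hcomm : ∀ g, U g * T = T * U g := by
    intro g
    exact Set.mem_centralizer_iff.mp hT (U g) (Or.inr ⟨g, rfl⟩)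
  have hTξ : ∀ g, U g (T ξ) = T ξ := by
    intro g
    have h1 := congrArg (fun S : H →L[ℂ] H => S ξ) (hcomm g)
    simp only [mul_apply_eq_comp] at h1
    rw [h1, hUξ]
  have hUnorm : ∀ g, ∀ v : H, ‖U g v‖ ≤ ‖v‖ := by
    intro g v
    have h1 : star (U g) * U g = 1 := by
      rw [himp.star, ← himp.mul, inv_mul_cancel, himp.one]
    have h2 : ‖U g v‖ ^ 2 = ‖v‖ ^ 2 := by
      have h3 : ⟪U g v, U g v⟫_ℂ = ⟪v, v⟫_ℂ := by
        rw [← ContinuousLinearMap.adjoint_inner_right]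
        have : (ContinuousLinearMap.adjoint (U g)) (U g v) = v := by
          have h4 := congrArg (fun S : H →L[ℂ] H => S v) h1
          simpa [ContinuousLinearMap.star_eq_adjoint] using h4
        rw [this]
      rw [inner_self_eq_norm_sq_to_K, inner_self_eq_norm_sq_to_K] at h3
      exact_mod_cast h3
    have h5 := (sq_eq_sq₀ (norm_nonneg _) (norm_nonneg _)).mp h2
    exact h5.le
  have hkey : π a ξ - T ξ = (Fintype.card G : ℂ)⁻¹ • ∑ g, U g (π x₀ ξ - T ξ) := by
    have h1 : π a ξ = (Fintype.card G : ℂ)⁻¹ • ∑ g, π (α g x₀) ξ := by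
      rw [ha, map_smul, map_sum]
      simp
    have h2 : T ξ = (Fintype.card G : ℂ)⁻¹ • ∑ _g : G, T ξ := by
      rw [Finset.sum_const, Finset.card_univ, ← Nat.cast_smul_eq_nsmul ℂ, smul_smul,
        inv_mul_cancel₀ hcardC, one_smul]
    rw [h1]
    conv_lhs => rw [h2]
    rw [← smul_sub, ← Finset.sum_sub_distrib]
    congr 1
    refine Finset.sum_congr rfl fun g _ => ?_
    rw [map_sub, himp.app, hTξ]
  rw [hkey, norm_smul, hnorm_inv]
  calc (Fintype.card G : ℝ)⁻¹ * ‖∑ g, U g (π x₀ ξ - T ξ)‖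
      ≤ (Fintype.card G : ℝ)⁻¹ * ∑ _g : G, ‖π x₀ ξ - T ξ‖ := by
        gcongr
        refine (norm_sum_le _ _).trans (Finset.sum_le_sum fun g _ => hUnorm g _)
    _ = ‖π x₀ ξ - T ξ‖ := by
        rw [Finset.sum_const, Finset.card_univ, nsmul_eq_mul, ← mul_assoc,
          inv_mul_cancel₀ hcard.ne', one_mul]
    _ < ε := hxT

end RC
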